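import Pool.Agent.Helper46.T5.Defs
import Pool.Agent.Helper15.T4.Stmts

set_option autoImplicit false

/-!
MP_2f9829_co: statements of the modules (replica model: maximum, uniqueness, Haar average, gauge fixing,
Laplace method, all moments). Module `X` proves `ST_X`, with the statements of the modules it uses as
hypotheses.
-/

open Finset MeasureTheory Filter Topology

namespace Pool.Agent.Helper46.T5

open Pool.Agent.Helper15.T4

/-! ### Group A: the maximum -/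

/-- PMAX: the maximum on complex vectors. -/
def ST_PMAX : Prop := ∀ (J : Type) [Fintype J] [DecidableEq J] (k : ℕ), Fintype.card J = 2 * k →
  ∀ x : (J → Fin 3) → ℂ, ‖TJ J x x x‖ ^ 2 ≤ (qq ^ k) ^ 2 * (∑ a, ‖x a‖ ^ 2) ^ 3

/-- PMAXR (from PMAX): the maximum on real vectors. -/
def ST_PMAXR : Prop := ∀ (J : Type) [Fintype J] [DecidableEq J] (k : ℕ), Fintype.card J = 2 * k →
  ∀ x : (J → Fin 3) → ℝ, (TJ J x x x) ^ 2 ≤ (qq ^ k) ^ 2 * nsq x ^ 3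

/-! ### Group U: uniqueness of the maximisers -/

/-- The blocks of a vector of `m + 2` replicas. -/
def blk {R : Type} {m : ℕ} (x : (Fin (m + 2) → Fin 3) → R) (i j : Fin 3) : (Fin m → Fin 3) → R :=
  fun a => x (Fin.cons i (Fin.cons j a : Fin (m + 1) → Fin 3))

/-- The combinations of the blocks. -/
noncomputable def xO {m : ℕ} (x : (Fin (m + 2) → Fin 3) → ℝ) (O : M3) : (Fin m → Fin 3) → ℝ :=
  fun a => Real.sqrt 3 * ∑ i, ∑ j, O i j * blk x i j a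

/-- DICH (from EQ of helper53 and PMAX): the two types of maximisers. -/
def ST_DICH : Prop := ∀ (k : ℕ) (x : (Fin (2 * k + 2) → Fin 3) → ℝ), nsq x = 1 →
  |TJ (Fin (2 * k + 2)) x x x| = qq ^ (k + 1) →
  (∃ (O : M3) (e : (Fin (2 * k) → Fin 3) → ℝ), O * O.transpose = 1 ∧ nsq e = 1 ∧
    |TJ (Fin (2 * k)) e e e| = qq ^ k ∧ ∀ i j a, blk x i j a = O i j / Real.sqrt 3 * e a) ∨
  (∃ s : ℝ, (s = 1 ∨ s = -1) ∧
    (∀ O, SO3 O → TJ (Fin (2 * k)) (xO x O) (xO x O) (xO x O) = s * qq ^ k) ∧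
    ∀ O O', ip (xO x O) (xO x O') = (O.transpose * O').trace / 3)

/-- HALF: only one factor moves. -/
def ST_HALF : Prop := ∀ (K : ℕ) (W : Fin K → M3 → M3), (∀ p O, SO3 O → SO3 (W p O)) →
  (∀ O O', SO3 O → SO3 O' →
    (O.transpose * O').trace / 3 = ∏ p, ((W p O).transpose * W p O').trace / 3) →
  ∃ p, ∀ p', p' ≠ p → ∀ O O', SO3 O → SO3 O' → W p' O = W p' O'

/-- PRES: linear maps that preserve the rotations. -/
def ST_PRES : Prop := ∀ W : M3 →ₗ[ℝ] M3, (∀ O, SO3 O → SO3 (W O)) →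
  ∃ A B : M3, A * A.transpose = 1 ∧ B * B.transpose = 1 ∧
    ((∀ N, W N = A * N * B) ∨ ∀ N, W N = A * N.transpose * B)

/-- SPAN: the rotations span the matrices. -/
def ST_SPAN : Prop := Submodule.span ℝ {O : M3 | SO3 O} = ⊤

/-- PTV: the values at the products. -/
def ST_PTV : Prop := ∀ (K : ℕ) (J : Type) [Fintype J] [DecidableEq J] (φ : Fin K × Fin 2 ≃ J)
  (O O' : Fin K → M3), (∀ p, SO3 (O p)) →
  TJ J (pt φ O) (pt φ O) (pt φ O) = qq ^ K ∧ nsq (pt φ O) = 1 ∧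
  (∀ h, TJ J (pt φ O) (pt φ O) h = qq ^ K * ip (pt φ O) h) ∧
  ip (pt φ O) (pt φ O') = ∏ p, ((O p).transpose * O' p).trace / 3

/-- SEP: a product determines the matching and the factors. -/
def ST_SEP : Prop := ∀ (K : ℕ) (J : Type) [Fintype J] [DecidableEq J] (φ φ' : Fin K × Fin 2 ≃ J)
  (O O' : Fin K → M3) (s : ℝ), (∀ p, SO3 (O p)) → (∀ p, SO3 (O' p)) → (s = 1 ∨ s = -1) →
  (∀ a, pt φ O a = s * pt φ' O' a) →
  s = 1 ∧ ∃ (e : Equiv.Perm (Fin K)) (fl : Fin K → Fin 2), (∀ p i, φ (p, i) = φ' (e p, i + fl p)) ∧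
    ∀ p, O p = if fl p = 0 then O' (e p) else (O' (e p)).transpose

/-- CONN (from SEP): a continuous family of products over matchings. -/
def ST_CONN : Prop := ∀ (K : ℕ) (J : Type) [Fintype J] [DecidableEq J]
  (X : M3 → (J → Fin 3) → ℝ), Continuous X →
  (∀ O, SO3 O → ∃ (φ : Fin K × Fin 2 ≃ J) (W : Fin K → M3), (∀ p, SO3 (W p)) ∧ X O = pt φ W) →
  ∃ φ : Fin K × Fin 2 ≃ J, ∀ O, SO3 O → ∃ W : Fin K → M3, (∀ p, SO3 (W p)) ∧ X O = pt φ W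

/-- UNIQ (from DICH, HALF, PRES, SPAN, PTV, SEP, CONN): the real maximisers. -/
def ST_UNIQ : Prop := ∀ (K : ℕ) (J : Type) [Fintype J] [DecidableEq J], Fintype.card J = 2 * K →
  ∀ x : (J → Fin 3) → ℝ, nsq x = 1 → |TJ J x x x| = qq ^ K →
  ∃ (s : ℤˣ) (φ : Fin K × Fin 2 ≃ J) (O : Fin K → M3), (∀ p, SO3 (O p)) ∧
    ∀ a, x a = ((s : ℤ) : ℝ) * pt φ O a

/-! ### Group Q: the Haar average -/

/-- CAY: the chart. -/
def ST_CAY : Prop := ∀ v : Fin 3 → ℝ, SO3 (Cay v)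

/-- AV1: total mass. -/
def ST_AV1 : Prop := ∀ K : ℕ, AV K (fun _ => 1) = 1 ∧
  Integrable (fun v : Fin K → Fin 3 → ℝ => ∏ p, rho (v p))

/-- AVLR (quaternions): invariance under left and right multiplication. -/
def ST_AVLR : Prop := ∀ (K : ℕ) (G : (Fin K → M3) → ℝ), Continuous G → ∀ A B : Fin K → M3,
  (∀ p, SO3 (A p)) → (∀ p, SO3 (B p)) → AV K (fun O => G (fun p => A p * O p * B p)) = AV K G

/-- AVPT: invariance under permutations and transpositions. -/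
def ST_AVPT : Prop := ∀ (K : ℕ) (G : (Fin K → M3) → ℝ) (e : Equiv.Perm (Fin K)) (fl : Fin K → Fin 2),
  AV K (fun O => G (fun p => if fl p = 0 then O (e p) else (O (e p)).transpose)) = AV K G

/-! ### Group F: the group action and the gauge fixing -/

/-- ACTT: the trilinear form under the action. -/
def ST_ACTT : Prop := ∀ (R : Type) [CommRing R] (J : Type) [Fintype J] [DecidableEq J]
  (A : J → Matrix (Fin 3) (Fin 3) R) (x y z : (J → Fin 3) → R),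
  TJ J (act A x) (act A y) (act A z) = (∏ j, (A j).det) * TJ J x y z

/-- ACTM: composition, unit, products. -/
def ST_ACTM : Prop := (∀ (R : Type) [CommRing R] (J : Type) [Fintype J] [DecidableEq J]
    (A B : J → Matrix (Fin 3) (Fin 3) R) (x : (J → Fin 3) → R),
    act A (act B x) = act (fun j => A j * B j) x ∧
    act (fun _ : J => (1 : Matrix (Fin 3) (Fin 3) R)) x = x) ∧
  (∀ (J : Type) [Fintype J] [DecidableEq J] (A : J → M3) (x y : (J → Fin 3) → ℝ),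
    ip (act A x) y = ip x (act (fun j => (A j).transpose) y)) ∧
  ∀ (K : ℕ) (J : Type) [Fintype J] [DecidableEq J] (A : J → M3) (φ : Fin K × Fin 2 ≃ J)
    (O : Fin K → M3),
    act A (pt φ O) = pt φ (fun p => A (φ (p, 0)) * O p * (A (φ (p, 1))).transpose)

/-- PERMT: permutations of the replicas. -/
def ST_PERMT : Prop := ∀ (R : Type) [CommRing R] (J J' : Type) [Fintype J] [DecidableEq J] [Fintype J']
  [DecidableEq J'] (e : J ≃ J') (x y z : (J → Fin 3) → R),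
  TJ J' (fun a => x (a ∘ e)) (fun a => y (a ∘ e)) (fun a => z (a ∘ e)) = TJ J x y z

/-- ACTV (from ACTM): the action of rotations and permutations preserves integrals. -/
def ST_ACTV : Prop := (∀ (J : Type) [Fintype J] [DecidableEq J] (A : J → M3)
    (F : ((J → Fin 3) → ℝ) → ℝ), (∀ j, SO3 (A j)) → ∫ x, F (act A x) = ∫ x, F x) ∧
  ∀ (J : Type) [Fintype J] [DecidableEq J] (π : Equiv.Perm J) (F : ((J → Fin 3) → ℝ) → ℝ),
    ∫ x : (J → Fin 3) → ℝ, F (fun a => x (a ∘ π)) = ∫ x, F x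

/-- PSC: continuity, positivity, bound. -/
def ST_PSC : Prop := ∀ K N : ℕ, Continuous (Psi K N) ∧ (∀ x, 0 < Psi K N x) ∧
  ∀ x, Psi K N x ≤ 2 * ((2 * K).factorial : ℝ)

/-- PSINV (from AVLR, AVPT, ACTM): invariance of `Psi`. -/
def ST_PSINV : Prop := ∀ (K N : ℕ) (x : (Fin K × Fin 2 → Fin 3) → ℝ),
  (∀ A : Fin K × Fin 2 → M3, (∀ j, SO3 (A j)) → Psi K N (act A x) = Psi K N x) ∧
  (∀ π : Equiv.Perm (Fin K × Fin 2), Psi K N (fun a => x (a ∘ π)) = Psi K N x) ∧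
  Psi K N (fun a => -x a) = Psi K N x

/-- FPI (from PSINV, PSC, ACTT, PERMT, ACTV, AV1, CAY): the gauge fixing identity. -/
def ST_FPI : Prop := ∀ K N : ℕ, 0 < N → ∫ y, fv K y ^ (2 * N) =
  2 * ((2 * K).factorial : ℝ) *
    ∫ y, fv K y ^ (2 * N) * Real.exp (-(N : ℝ) * nsq (fun a => y a - u0 K a)) / Psi K N y

/-! ### Group H: the Hessian -/

/-- EBO: `eb` is an orthonormal basis. -/
def ST_EBO : Prop := ∀ K : ℕ, (∀ b c : Fin K → Fin 9, ip (eb b) (eb c) = if b = c then 1 else 0) ∧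
  (∀ h : (Fin K × Fin 2 → Fin 3) → ℝ, nsq h = ∑ b : Fin K → Fin 9, ip (eb b) h ^ 2) ∧
  eb (0 : Fin K → Fin 9) = u0 K

/-- EBT: `eb` diagonalises the form at the peak. -/
def ST_EBT : Prop := ∀ (K : ℕ) (b : Fin K → Fin 9) (h : (Fin K × Fin 2 → Fin 3) → ℝ),
  TJ (Fin K × Fin 2) (u0 K) (eb b) h = qq ^ K * (∏ p, mu (b p)) * ip (eb b) h

/-- HES (from EBO, EBT): the Hessian in the basis. -/
def ST_HES : Prop := ∀ (K : ℕ) (h : (Fin K × Fin 2 → Fin 3) → ℝ),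
  Q5 K h = ∑ b : Fin K → Fin 9, ev5 b * ip (eb b) h ^ 2 ∧ 3 / 2 * (nsq h - tq K h) ≤ Q5 K h ∧
  tq K h ≤ nsq h ∧ 0 ≤ tq K h

/-- EXP5 (from EBT): expansion at the peak. -/
def ST_EXP5 : Prop := ∀ K : ℕ, ∃ C : ℝ, ∀ h : (Fin K × Fin 2 → Fin 3) → ℝ, nsq h ≤ 1 →
  |fv K (fun a => u0 K a + h a) - (1 - Q5 K h / 2)| ≤ C * Real.sqrt (nsq h) ^ 3

/-- TANP (from EBO): the tangential part. -/
def ST_TANP : Prop := ∀ (K : ℕ) (h : (Fin K × Fin 2 → Fin 3) → ℝ), ∃ v : Fin K → Fin 3 → ℝ,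
  8 / 3 * ∑ p, nsq (v p) = tq K h ∧ nsq (fun a => h a - Lm v a) = nsq h - tq K h ∧
  ∀ w : Fin K → Fin 3 → ℝ, ip (Lm w) h = 8 / 3 * ∑ p, ip (w p) (v p) ∧
    nsq (Lm w) = 8 / 3 * ∑ p, nsq (w p)

/-- LOC: first order expansion of the chart. -/
def ST_LOC : Prop := ∀ K : ℕ, ∃ C : ℝ, 0 < C ∧ ∀ v : Fin K → Fin 3 → ℝ, ∑ p, nsq (v p) ≤ 1 →
  nsq (fun a => pt (Equiv.refl _) (fun p => Cay (v p)) a - u0 K a - Lm v a) ≤
    C * (∑ p, nsq (v p)) ^ 2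

/-- DIST (from PTV): distance to the peak in the chart. -/
def ST_DIST : Prop := ∀ (K : ℕ) (v : Fin K → Fin 3 → ℝ) (p : Fin K),
  1 / 2 * (nsq (v p) / (1 + nsq (v p))) ≤
    nsq (fun a => pt (Equiv.refl _) (fun p => Cay (v p)) a - u0 K a)

/-! ### Group L: the Laplace method -/

/-- LOW1 (from LOC, TANP, AV1, CAY): global lower bound. -/
def ST_LOW1 : Prop := ∀ K : ℕ, ∃ c : ℝ, 0 < c ∧ ∀ N : ℕ, 1 ≤ N →
  ∀ x : (Fin K × Fin 2 → Fin 3) → ℝ, c / (N : ℝ) ^ (3 * K) *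
    Real.exp (-(N : ℝ) * nsq (fun a => x a - u0 K a) - 2 * Real.sqrt (nsq (fun a => x a - u0 K a))) ≤
      Psi K N x

/-- LOW2 (from LOC, TANP, AV1, CAY): local lower bound. -/
def ST_LOW2 : Prop := ∀ K : ℕ, ∃ c r C : ℝ, 0 < c ∧ 0 < r ∧ ∀ N : ℕ, 1 ≤ N →
  ∀ h : (Fin K × Fin 2 → Fin 3) → ℝ, nsq h ≤ r →
  c / (N : ℝ) ^ (3 * (K : ℝ) / 2) *
    Real.exp (-(N : ℝ) * (nsq h - tq K h) - C * N * Real.sqrt (nsq h) ^ 3) ≤
      Psi K N (fun a => u0 K a + h a)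

/-- Permutations that preserve the standard matching. -/
def Blk {K : ℕ} (π : Equiv.Perm (Fin K × Fin 2)) : Prop :=
  ∀ p, (π (p, 0)).1 = (π (p, 1)).1

/-- COMP (from SEP): the other components are far from the peak. -/
def ST_COMP : Prop := ∀ K : ℕ, ∃ δ : ℝ, 0 < δ ∧ ∀ (s : ℤˣ) (π : Equiv.Perm (Fin K × Fin 2))
  (O : Fin K → M3), (∀ p, SO3 (O p)) → (s = -1 ∨ ¬ Blk π) →
  δ ≤ nsq (fun a => u0 K a - ((s : ℤ) : ℝ) * pt π O a)

open Classical in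
/-- BLKN: their number. -/
def ST_BLKN : Prop := ∀ K : ℕ, (univ.filter (fun π : Equiv.Perm (Fin K × Fin 2) => Blk π)).card =
  2 ^ K * K.factorial

/-- The constant of the gauge fixing. -/
noncomputable def CK (K : ℕ) : ℝ :=
  2 ^ K * (K.factorial : ℝ) * ((Real.pi ^ 2)⁻¹ * (3 * Real.pi / 4) ^ ((3 : ℝ) / 2)) ^ K

/-- LIM1 (from LOC, TANP, DIST): the Gaussian limit of one component. -/
def ST_LIM1 : Prop := ∀ (K : ℕ) (t : (Fin K × Fin 2 → Fin 3) → ℝ), Tendsto (fun N : ℕ =>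
  (2 * (N : ℝ)) ^ (3 * (K : ℝ) / 2) * Real.exp (nsq t / 2) *
    AV K (fun O => Real.exp (-(N : ℝ) *
      nsq (fun a => u0 K a + t a / Real.sqrt (2 * N) - pt (Equiv.refl _) O a)))) atTop
  (𝓝 (((Real.pi ^ 2)⁻¹ * (3 * Real.pi / 4) ^ ((3 : ℝ) / 2)) ^ K * Real.exp (tq K t / 2)))

/-- LIM (from LIM1, COMP, BLKN, AVPT, AV1, CAY): the limit of `Psi`. -/
def ST_LIM : Prop := ∀ (K : ℕ) (t : (Fin K × Fin 2 → Fin 3) → ℝ), Tendsto (fun N : ℕ =>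
  (2 * (N : ℝ)) ^ (3 * (K : ℝ) / 2) * Real.exp (nsq t / 2) *
    Psi K N (fun a => u0 K a + t a / Real.sqrt (2 * N))) atTop (𝓝 (CK K * Real.exp (tq K t / 2)))

/-- OUT (from LOW1, PSINV, ACTM, PMAXR, UNIQ): the region far from the peak. -/
def ST_OUT : Prop := ∀ (K : ℕ) (r : ℝ), 0 < r → ∃ c C : ℝ, 0 < c ∧ ∀ N : ℕ, 1 ≤ N →
  ∫ y in {y : (Fin K × Fin 2 → Fin 3) → ℝ | r ≤ nsq (fun a => y a - u0 K a)},
    fv K y ^ (2 * N) * Real.exp (-(N : ℝ) * nsq (fun a => y a - u0 K a)) / Psi K N y ≤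
      C * Real.exp (-c * N)

/-- LAPF (from OUT, LIM, LOW2, EXP5, HES, PSC): the Laplace method. -/
def ST_LAPF : Prop := ∀ K : ℕ, Tendsto (fun N : ℕ =>
  (2 * (N : ℝ)) ^ (((9 : ℝ) ^ K - 3 * K) / 2) *
    ∫ y, fv K y ^ (2 * N) * Real.exp (-(N : ℝ) * nsq (fun a => y a - u0 K a)) / Psi K N y) atTop
  (𝓝 ((CK K)⁻¹ * ∫ t, Real.exp (-(Q5 K t + tq K t) / 2)))

open Classical in
/-- GINT (from HES, EBO): the Gaussian integral. -/
def ST_GINT : Prop := ∀ K : ℕ, ∫ t, Real.exp (-(Q5 K t + tq K t) / 2) =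
  (2 * Real.pi) ^ ((9 : ℝ) ^ K / 2) *
    ∏ b : Fin K → Fin 9, (Real.sqrt (ev5 b + if b ∈ Tan K then 1 else 0))⁻¹

open Classical in
/-- PRD: the product over the eigenvalues. -/
def ST_PRD : Prop := ∀ K : ℕ,
  (3 : ℝ) ^ ((9 : ℝ) ^ K / 2) *
    ∏ b : Fin K → Fin 9, (Real.sqrt (ev5 b + if b ∈ Tan K then 1 else 0))⁻¹ =
  (Real.sqrt 2)⁻¹ * (3 : ℝ) ^ (3 * (K : ℝ) / 2) * (2 : ℝ) ^ (-(5 * (K : ℝ) / 2)) *
    Real.exp (∑' k : ℕ, lam k * (tau5 k ^ K - 1 - K * (tau5 k - 1)))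

/-- SCAL: scaling of the Gaussian integral. -/
def ST_SCAL : Prop := ∀ K N : ℕ, 0 < N →
  GI (fun x => (mJ (Fin K × Fin 2)).P x ^ (2 * N)) =
    (((3 * (N : ℝ) / Real.pi) ^ ((9 : ℝ) ^ K / 2) * NF 1 N * (qq ^ (2 * K)) ^ N *
      ∫ y, fv K y ^ (2 * N) : ℝ) : ℂ)

/-- TOT (from FPI, LAPF, GINT, PRD, SCAL): all moments. -/
def ST_TOT : Prop := ∀ K : ℕ, Tendsto (fun N : ℕ =>
  GI (fun x => (mJ (Fin K × Fin 2)).P x ^ (2 * N)) / ((NF 1 N * sN N ^ K : ℝ) : ℂ)) atTop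
  (𝓝 ((Real.sqrt 2 * mom K : ℝ) : ℂ))

end Pool.Agent.Helper46.T5
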