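import Pool.Agent.Helper15.T4.Defs

set_option autoImplicit false

/-!
MP_2f9829_co: almost all cubic graphs are 3-edge-choosable. Definitions for the replica model:
`Z ^ (2 K)` is the label model with labels `J → Fin 3`, `card J = 2 K`, whose vertex polynomial is the
`K`-th Kronecker power of `6 det` on the 3x3 matrices.
-/

open Finset MeasureTheory Filter Topology

namespace Pool.Agent.Helper46.T5

open Pool.Agent.Helper15.T4

/-- Real 3x3 matrices. -/
abbrev M3 : Type := Matrix (Fin 3) (Fin 3) ℝ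

/-- The Levi-Civita symbol. -/
def eps (a b c : Fin 3) : ℤ :=
  if a = b ∨ b = c ∨ a = c then 0 else if b = a + 1 then 1 else -1

/-- The trilinear form of the replicas `J`. -/
def TJ {R : Type} [CommRing R] (J : Type) [Fintype J] [DecidableEq J]
    (x y z : (J → Fin 3) → R) : R :=
  ∑ a : J → Fin 3, ∑ b : J → Fin 3, ∑ c : J → Fin 3,
    (∏ j, ((eps (a j) (b j) (c j) : ℤ) : R)) * x a * y b * z c

/-- The label model of the replicas `J`. -/
noncomputable def mJ (J : Type) [Fintype J] [DecidableEq J] : Mdl (J → Fin 3) (J → Fin 3) :=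
  ⟨fun a b c => ∏ j, ((eps (a j) (b j) (c j) : ℤ) : ℝ), fun a i => if a = i then 1 else 0⟩

/-- The maximum for one pair of replicas. -/
noncomputable def qq : ℝ := 2 / Real.sqrt 3

/-- Rotation matrices. -/
def SO3 (O : M3) : Prop := O * O.transpose = 1 ∧ O.det = 1

/-- Product over the pairs `{φ (p, 0), φ (p, 1)}` of replicas of the unit vectors `O p / √3`. -/
noncomputable def pt {J : Type} {K : ℕ} (φ : Fin K × Fin 2 ≃ J) (O : Fin K → M3) :
    (J → Fin 3) → ℝ :=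
  fun a => ∏ p, O p (a (φ (p, 0))) (a (φ (p, 1))) / Real.sqrt 3

/-- The peak. -/
noncomputable def u0 (K : ℕ) : (Fin K × Fin 2 → Fin 3) → ℝ := pt (Equiv.refl _) (fun _ => 1)

/-- The action of matrices on the replicas. -/
def act {R : Type} [CommRing R] {J : Type} [Fintype J] [DecidableEq J]
    (A : J → Matrix (Fin 3) (Fin 3) R) (x : (J → Fin 3) → R) : (J → Fin 3) → R :=
  fun a => ∑ b : J → Fin 3, (∏ j, A j (a j) (b j)) * x b

/-! ### Rotations -/

/-- The matrix of the cross product with `v`. -/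
def skew (v : Fin 3 → ℝ) : M3 := !![0, -(v 2), v 1; v 2, 0, -(v 0); -(v 1), v 0, 0]

/-- The rotation of the quaternion `1 + v` (up to scalars). -/
noncomputable def Cay (v : Fin 3 → ℝ) : M3 :=
  (1 + nsq v)⁻¹ • ((1 - nsq v) • (1 : M3) + (2 : ℝ) • Matrix.vecMulVec v v + (2 : ℝ) • skew v)

/-- Density of the Haar measure of SO(3) in the chart `Cay`. -/
noncomputable def rho (v : Fin 3 → ℝ) : ℝ := (Real.pi ^ 2 * (1 + nsq v) ^ 2)⁻¹

/-- Average over `SO(3)^K`. -/
noncomputable def AV (K : ℕ) (G : (Fin K → M3) → ℝ) : ℝ :=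
  ∫ v : Fin K → Fin 3 → ℝ, G (fun p => Cay (v p)) * ∏ p, rho (v p)

/-- The gauge fixing function. -/
noncomputable def Psi (K N : ℕ) (x : (Fin K × Fin 2 → Fin 3) → ℝ) : ℝ :=
  ∑ s : ℤˣ, ∑ π : Equiv.Perm (Fin K × Fin 2),
    AV K (fun O => Real.exp (-(N : ℝ) * nsq (fun a => x a - ((s : ℤ) : ℝ) * pt π O a)))

/-! ### The Hessian -/

/-- An orthonormal basis of the 3x3 matrices: scalar, antisymmetric, symmetric traceless. -/
noncomputable def Em (k : Fin 9) : M3 :=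
  if k = 0 then (Real.sqrt 3)⁻¹ • (1 : M3)
  else if k = 1 then (Real.sqrt 2)⁻¹ • skew (Pi.single 0 1)
  else if k = 2 then (Real.sqrt 2)⁻¹ • skew (Pi.single 1 1)
  else if k = 3 then (Real.sqrt 2)⁻¹ • skew (Pi.single 2 1)
  else if k = 4 then (Real.sqrt 2)⁻¹ • !![0, 1, 0; 1, 0, 0; 0, 0, 0]
  else if k = 5 then (Real.sqrt 2)⁻¹ • !![0, 0, 1; 0, 0, 0; 1, 0, 0]
  else if k = 6 then (Real.sqrt 2)⁻¹ • !![0, 0, 0; 0, 0, 1; 0, 1, 0]
  else if k = 7 then (Real.sqrt 2)⁻¹ • !![1, 0, 0; 0, -1, 0; 0, 0, 0]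
  else (Real.sqrt 6)⁻¹ • !![1, 0, 0; 0, 1, 0; 0, 0, -2]

/-- The eigenvalues. -/
noncomputable def mu (k : Fin 9) : ℝ := if k = 0 then 1 else if k = 1 ∨ k = 2 ∨ k = 3 then 1 / 2 else -(1 / 2)

/-- The orthonormal basis of products. -/
noncomputable def eb {K : ℕ} (b : Fin K → Fin 9) : (Fin K × Fin 2 → Fin 3) → ℝ :=
  fun a => ∏ p, Em (b p) (a (p, 0)) (a (p, 1))

/-- Scalar product. -/
def ip {ι : Type} [Fintype ι] (x y : ι → ℝ) : ℝ := ∑ i, x i * y i

/-- The Hessian at the peak. -/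
noncomputable def Q5 (K : ℕ) (h : (Fin K × Fin 2 → Fin 3) → ℝ) : ℝ :=
  3 * nsq h - 6 * TJ (Fin K × Fin 2) (u0 K) h h / qq ^ K + 9 * ip (u0 K) h ^ 2

open Classical in
/-- The indices of the tangential directions: one antisymmetric factor. -/
noncomputable def Tan (K : ℕ) : Finset (Fin K → Fin 9) :=
  univ.filter (fun b => ∃ p, (b p = 1 ∨ b p = 2 ∨ b p = 3) ∧ ∀ p', p' ≠ p → b p' = 0)

/-- Squared length of the tangential part. -/
noncomputable def tq (K : ℕ) (h : (Fin K × Fin 2 → Fin 3) → ℝ) : ℝ := ∑ b ∈ Tan K, ip (eb b) h ^ 2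

/-- Eigenvalue of the Hessian. -/
noncomputable def ev5 {K : ℕ} (b : Fin K → Fin 9) : ℝ :=
  3 * (1 - 2 * ∏ p, mu (b p)) + (if b = 0 then 9 else 0)

/-- The tangent map of `v ↦ pt (Cay v)` at `0`. -/
noncomputable def Lm {K : ℕ} (v : Fin K → Fin 3 → ℝ) : (Fin K × Fin 2 → Fin 3) → ℝ :=
  fun a => ∑ p, ∑ i : Fin 3, Real.sqrt (8 / 3) * v p i *
    eb (Function.update (0 : Fin K → Fin 9) p ⟨i.val + 1, by omega⟩) a

/-! ### Constants -/

/-- `tau5 k` is the cycle factor of the cycles of length `k + 1` for one pair of replicas. -/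
noncomputable def tau5 (k : ℕ) : ℝ := 1 + 3 * (1 / 2) ^ (k + 1) + 5 * (-(1 / 2)) ^ (k + 1)

/-- The even moments of a standard Gaussian variable. -/
noncomputable def df (K : ℕ) : ℝ := ∏ i ∈ range K, (2 * (i : ℝ) + 1)

/-- The limit moments. -/
noncomputable def mom (K : ℕ) : ℝ :=
  df K * Real.exp (∑' k : ℕ, lam k * (tau5 k ^ K - 1 - K * (tau5 k - 1)))

/-- The scale: the second moment is asymptotic to `sN`. -/
noncomputable def sN (N : ℕ) : ℝ :=
  (4 / 3) ^ N * (2 * (N : ℝ)) ^ ((3 : ℝ) / 2) * Real.sqrt (2 * Real.pi)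

/-- The normalised vertex function. -/
noncomputable def fv (K : ℕ) (y : (Fin K × Fin 2 → Fin 3) → ℝ) : ℝ :=
  TJ (Fin K × Fin 2) y y y * Real.exp (-(3 / 2) * (nsq y - 1)) / qq ^ K

end Pool.Agent.Helper46.T5
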